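import Mathlib
import Pool.Agent.H316.EM.Stm2

/-! EM JAC (helper52). -/

namespace Pool.Agent.H52

theorem em_jac : Pool.Agent.H316.EM.S_JAC := by
  intro R S U _ _ _ _ _ _ _ _ _ _ _ f g hyp
  by_contra hf
  have hJ : IsJacobsonRing S := isJacobsonRing_of_finiteType (A := ZMod 2) (B := S)
  have hrad : (Ideal.span {g}).radical.jacobson = (Ideal.span {g}).radical :=
    hJ.out (Ideal.radical_isRadical _)
  rw [← hrad, Ideal.jacobson, Ideal.mem_sInf] at hf
  push Not at hf
  obtain ⟨N, ⟨hN1, hN2⟩, hfN⟩ := hf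
  have hgN : g ∈ N := hN1 (Ideal.le_radical (Ideal.mem_span_singleton_self g))
  let _ : Field (S ⧸ N) := Ideal.Quotient.field N
  have hfin : Module.Finite (ZMod 2) (S ⧸ N) := by
    have : Algebra.FiniteType (ZMod 2) (S ⧸ N) :=
      Algebra.FiniteType.of_surjective (Ideal.Quotient.mkₐ (ZMod 2) N)
        Ideal.Quotient.mk_surjective
    exact finite_of_finite_type_of_isJacobsonRing (ZMod 2) (S ⧸ N)
  have hfin' : Finite (S ⧸ N) := Module.finite_of_finite (ZMod 2)
  set m : Ideal R := N.comap (algebraMap R S) with hm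
  have hNp : N.IsPrime := hN2.isPrime
  have hmp : m.IsPrime := Ideal.comap_isPrime _ _
  have hmf : Finite (R ⧸ m) := by
    have hinj : Function.Injective (Ideal.quotientMap N (algebraMap R S) (le_refl m)) :=
      Ideal.quotientMap_injective
    exact Finite.of_injective _ hinj
  have hmm : m.IsMaximal := by
    have : IsDomain (R ⧸ m) := Ideal.Quotient.isDomain m
    exact Ideal.Quotient.maximal_of_isField m (Finite.isField_of_domain _)
  have hfm : f ∉ m := hfN
  have h1 := hyp m hmm hfm
  have h2 : (⊤ : Submodule S U) ≤ N • (⊤ : Submodule S U) := by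
    intro u _
    obtain ⟨u', w, hw, rfl⟩ := h1 u
    refine Submodule.add_mem _ (Submodule.smul_mem_smul hgN Submodule.mem_top) ?_
    refine Submodule.smul_induction_on (p := fun w => w ∈ N • (⊤ : Submodule S U)) hw ?_ ?_
    · intro r hr x _
      rw [← algebraMap_smul S r x]
      exact Submodule.smul_mem_smul hr Submodule.mem_top
    · intro x y hx hy
      exact Submodule.add_mem _ hx hy
  obtain ⟨e, he, he'⟩ := Submodule.exists_sub_one_mem_and_smul_eq_zero_of_fg_of_le_smul N
    (⊤ : Submodule S U) Module.Finite.fg_top h2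
  have h3 : e = 0 := FaithfulSMul.eq_of_smul_eq_smul fun u : U => by
    rw [he' u Submodule.mem_top, zero_smul]
  rw [h3, zero_sub] at he
  have h4 : (1 : S) ∈ N := by
    have := N.neg_mem he
    rwa [neg_neg] at this
  exact hN2.ne_top ((Ideal.eq_top_iff_one N).2 h4)

end Pool.Agent.H52
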